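import Mathlib

/-!
Pure sequence part of Theorem F (proofs row 602), section 10: the bootstrap.
-/

set_option autoImplicit false

namespace Pool.MP_7d29a1_pr.F1

open Finset

/-- telescoping -/
theorem sum_diff (F : ℕ → ℝ) (x l : ℕ) :
    ∑ j ∈ range l, (F (x + j + 1) - F (x + j)) = F (x + l) - F x := by
  have := Finset.sum_range_sub (fun j => F (x + j)) l
  simpa [add_assoc] using this

/-- the double sum of section 10 -/
theorem double_sum (d : ℕ → ℝ) (l : ℕ → ℕ) (ρ : ℝ) (hρ0 : 0 ≤ ρ) (hρ1 : ρ < 1)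
    (hd : ∀ x, 0 ≤ d x) (X M : ℕ) (hl : ∀ x, x < X → l x ≤ M) :
    ∑ x ∈ range X, ρ ^ (l x) * ∑ j ∈ range (l x), d (x + 1 + j) ≤
      (1 / (1 - ρ)) * ∑ y ∈ range (X + M), d y := by
  have h1 : ∀ x ∈ range X, ρ ^ (l x) * ∑ j ∈ range (l x), d (x + 1 + j) ≤
      ∑ j ∈ range M, ρ ^ j * d (x + 1 + j) := by
    intro x hx
    rw [Finset.mul_sum]
    have hlM := hl x (Finset.mem_range.1 hx)
    refine le_trans (Finset.sum_le_sum (g := fun j => ρ ^ j * d (x + 1 + j)) ?_) ?_
    · intro j hj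
      exact mul_le_mul_of_nonneg_right
        (pow_le_pow_of_le_one hρ0 hρ1.le (Finset.mem_range.1 hj).le) (hd _)
    · exact Finset.sum_le_sum_of_subset_of_nonneg (Finset.range_mono hlM)
        (fun j _ _ => mul_nonneg (pow_nonneg hρ0 _) (hd _))
  refine (Finset.sum_le_sum h1).trans ?_
  rw [Finset.sum_comm]
  have h2 : ∀ j ∈ range M, ∑ x ∈ range X, ρ ^ j * d (x + 1 + j) ≤
      ρ ^ j * ∑ y ∈ range (X + M), d y := by
    intro j hj
    rw [← Finset.mul_sum]
    refine mul_le_mul_of_nonneg_left ?_ (pow_nonneg hρ0 _)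
    have hjM := Finset.mem_range.1 hj
    have e : ∑ x ∈ range X, d (x + 1 + j) = ∑ y ∈ (range X).image (fun x => x + 1 + j), d y := by
      rw [Finset.sum_image]
      intro a _ b _ hab
      simpa using hab
    rw [e]
    refine Finset.sum_le_sum_of_subset_of_nonneg ?_ (fun y _ _ => hd y)
    intro y hy
    rw [Finset.mem_image] at hy
    obtain ⟨x, hx, rfl⟩ := hy
    have := Finset.mem_range.1 hx
    rw [Finset.mem_range]
    omega
  refine (Finset.sum_le_sum h2).trans ?_
  rw [← Finset.sum_mul]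
  have hD : 0 ≤ ∑ y ∈ range (X + M), d y := Finset.sum_nonneg fun y _ => hd y
  refine mul_le_mul_of_nonneg_right ?_ hD
  have h3 : (∑ j ∈ range M, ρ ^ j) * (1 - ρ) ≤ 1 := by
    rw [geom_sum_mul_neg]
    have := pow_nonneg hρ0 M
    linarith
  rw [le_div_iff₀ (by linarith)]
  exact h3

/-- **Bootstrap** (section 10). -/
theorem boot (F ν η : ℕ → ℝ) (l : ℕ → ℕ) (C g : ℝ) (x0 : ℕ) (hC : 1 ≤ C)
    (hg1 : g < 1) (hmono : Monotone F) (h2 : ∀ x, F (x + 1) - F x ≤ 1)
    (hSG : ∀ x y, x0 ≤ x → x ≤ y → F y - F x ≤ g * Real.log 2 * ((y : ℝ) - x) + C)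
    (hν : ∀ x, 0 ≤ ν x) (hνl : ∀ x, x0 ≤ x → ν x * 2 ^ (l x) ≤ C)
    (hl : ∀ x, x0 ≤ x → (l x : ℝ) ≤ C * Real.log ((x : ℝ) + 2))
    (hη : ∀ x, 0 ≤ η x) (hηs : ∀ X, ∑ x ∈ range X, η x ≤ C)
    (hgrow : ∀ x, x0 ≤ x →
      F (x + 1) - F x ≤ C * ν x * Real.exp (F (x + 1 + l x) - F (x + 1)) + η x)
    (hsum : ∀ ε : ℝ, 0 < ε → ∃ K, ∀ X : ℕ, ∑ x ∈ range X, ν x ≤ ε * Real.log ((X : ℝ) + 2) + K)
    (δ : ℝ) (hδ : 0 < δ) : ∃ K, ∀ X : ℕ, F X ≤ δ * Real.log ((X : ℝ) + 2) + K := by
  -- constants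
  obtain ⟨ρ, hρ⟩ : ∃ ρ : ℝ, ρ = Real.exp (-((1 - g) * Real.log 2)) := ⟨_, rfl⟩
  have hlog2 : 0 < Real.log 2 := Real.log_pos (by norm_num)
  have hρ0 : 0 < ρ := by rw [hρ]; exact Real.exp_pos _
  have hρ1 : ρ < 1 := by
    rw [hρ, Real.exp_lt_one_iff]
    have := mul_pos (sub_pos.2 hg1) hlog2
    linarith
  obtain ⟨B, hB⟩ : ∃ B : ℝ, B = C * C * Real.exp C := ⟨_, rfl⟩
  have hC0 : 0 < C := by linarith
  have hB0 : 0 < B := by rw [hB]; positivity
  obtain ⟨S, hS⟩ : ∃ S : ℝ, S = 1 / (1 - ρ) := ⟨_, rfl⟩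
  have hS0 : 0 < S := by rw [hS]; exact div_pos one_pos (by linarith)
  -- choose K
  obtain ⟨K, hK⟩ : ∃ K : ℝ, K = 2 * B * S + 4 * B * S * C / δ + 1 := ⟨_, rfl⟩
  have hK0 : 0 < K := by rw [hK]; positivity
  have hq : B / K * S ≤ 1 / 2 := by
    rw [div_mul_eq_mul_div, div_le_iff₀ hK0, hK]
    have h3 : 0 ≤ 4 * B * S * C / δ := by positivity
    nlinarith
  have hq2 : B / K * S * C ≤ δ / 4 := by
    rw [div_mul_eq_mul_div, div_mul_eq_mul_div, div_le_iff₀ hK0, hK]
    have h3 : δ / 4 * (4 * B * S * C / δ) = B * S * C := by field_simp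
    have h4 : 0 ≤ δ / 4 * (2 * B * S + 1) := by positivity
    nlinarith
  -- pointwise inequality
  obtain ⟨d, hd⟩ : ∃ d : ℕ → ℝ, d = fun x => F (x + 1) - F x := ⟨_, rfl⟩
  have hd0 : ∀ x, 0 ≤ d x := fun x => by
    rw [hd]
    exact sub_nonneg.2 (hmono (Nat.le_succ x))
  have hpt : ∀ x, x0 ≤ x → d x ≤ C * Real.exp K * ν x + η x +
      B / K * (ρ ^ (l x) * ∑ j ∈ range (l x), d (x + 1 + j)) := by
    intro x hx
    have hD : ∑ j ∈ range (l x), d (x + 1 + j) = F (x + 1 + l x) - F (x + 1) := by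
      rw [hd]
      exact sum_diff F (x + 1) (l x)
    rw [hD]
    have h1 := hgrow x hx
    have hD0 : 0 ≤ F (x + 1 + l x) - F (x + 1) := sub_nonneg.2 (hmono (Nat.le_add_right _ _))
    have hρl : 0 ≤ ρ ^ (l x) := (pow_pos hρ0 _).le
    by_cases hDK : F (x + 1 + l x) - F (x + 1) ≤ K
    · have h3 : C * ν x * Real.exp (F (x + 1 + l x) - F (x + 1)) ≤ C * Real.exp K * ν x := by
        have := Real.exp_le_exp.2 hDK
        have h4 : 0 ≤ C * ν x := mul_nonneg hC0.le (hν x)
        calc C * ν x * Real.exp (F (x + 1 + l x) - F (x + 1)) ≤ C * ν x * Real.exp K :=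
              mul_le_mul_of_nonneg_left this h4
          _ = C * Real.exp K * ν x := by ring
      have h5 : 0 ≤ B / K * (ρ ^ (l x) * (F (x + 1 + l x) - F (x + 1))) := by positivity
      have h6 : d x = F (x + 1) - F x := by rw [hd]
      rw [h6]
      linarith
    · have hDK' : K < F (x + 1 + l x) - F (x + 1) := lt_of_not_ge hDK
      have h3 := hSG (x + 1) (x + 1 + l x) (by omega) (Nat.le_add_right _ _)
      have h4 : ((x + 1 + l x : ℕ) : ℝ) - ((x + 1 : ℕ) : ℝ) = l x := by push_cast; ring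
      rw [h4] at h3
      have h5 : ν x ≤ C * Real.exp (-(Real.log 2 * l x)) := by
        have h6 := hνl x hx
        have h7 : (2 : ℝ) ^ (l x) = Real.exp (Real.log 2 * l x) := by
          rw [mul_comm, Real.exp_nat_mul, Real.exp_log (by norm_num)]
        rw [h7] at h6
        rw [Real.exp_neg, ← div_eq_mul_inv, le_div_iff₀ (Real.exp_pos _)]
        exact h6
      have h6 : C * ν x * Real.exp (F (x + 1 + l x) - F (x + 1)) ≤ B * ρ ^ (l x) := by
        have h7 : Real.exp (F (x + 1 + l x) - F (x + 1)) ≤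
            Real.exp (g * Real.log 2 * l x + C) := Real.exp_le_exp.2 h3
        have h8 : ρ ^ (l x) = Real.exp (-(Real.log 2 * l x)) * Real.exp (g * Real.log 2 * l x) := by
          rw [hρ, ← Real.exp_nat_mul, ← Real.exp_add]
          congr 1
          ring
        rw [h8, hB]
        calc C * ν x * Real.exp (F (x + 1 + l x) - F (x + 1))
            ≤ C * (C * Real.exp (-(Real.log 2 * l x))) * Real.exp (g * Real.log 2 * l x + C) := by
              refine mul_le_mul (mul_le_mul_of_nonneg_left h5 hC0.le) h7 (Real.exp_pos _).le ?_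
              positivity
          _ = C * C * Real.exp C *
              (Real.exp (-(Real.log 2 * l x)) * Real.exp (g * Real.log 2 * l x)) := by
              rw [Real.exp_add]
              ring
      have h9 : B * ρ ^ (l x) ≤ B / K * (ρ ^ (l x) * (F (x + 1 + l x) - F (x + 1))) := by
        have h10 : B * ρ ^ (l x) = B / K * (ρ ^ (l x) * K) := by field_simp
        rw [h10]
        exact mul_le_mul_of_nonneg_left (mul_le_mul_of_nonneg_left hDK'.le hρl) (by positivity)
      have h11 : 0 ≤ C * Real.exp K * ν x := by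
        have := hν x
        positivity
      have h12 : d x = F (x + 1) - F x := by rw [hd]
      rw [h12]
      linarith
  -- epsilon
  obtain ⟨ε, hε⟩ : ∃ ε : ℝ, ε = δ / (4 * (C * Real.exp K)) := ⟨_, rfl⟩
  have hε0 : 0 < ε := by rw [hε]; positivity
  obtain ⟨Kε, hKε⟩ := hsum ε hε0
  have hεC : C * Real.exp K * ε = δ / 4 := by
    rw [hε]
    field_simp
  refine ⟨2 * (x0 + C * Real.exp K * |Kε| + C) + F 0, fun X => ?_⟩
  obtain ⟨L, hL⟩ : ∃ L : ℝ, L = Real.log ((X : ℝ) + 2) := ⟨_, rfl⟩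
  have hL0 : 0 ≤ L := by
    rw [hL]
    exact Real.log_nonneg (by have : (0 : ℝ) ≤ X := Nat.cast_nonneg X; linarith)
  obtain ⟨M, hM⟩ : ∃ M : ℕ, M = ⌊C * L⌋₊ := ⟨_, rfl⟩
  have hML : (M : ℝ) ≤ C * L := by
    rw [hM]
    exact Nat.floor_le (by positivity)
  obtain ⟨l', hl'⟩ : ∃ l' : ℕ → ℕ, l' = fun x => if x0 ≤ x then l x else 0 := ⟨_, rfl⟩
  have hlM : ∀ x, x < X → l' x ≤ M := by
    intro x hx
    rw [hl']
    by_cases h : x0 ≤ x
    · simp only [h, if_true]
      rw [hM]
      refine Nat.le_floor ((hl x h).trans (mul_le_mul_of_nonneg_left ?_ hC0.le))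
      rw [hL]
      refine Real.log_le_log ?_ ?_
      · have : (0 : ℝ) ≤ x := Nat.cast_nonneg x
        linarith
      · have : (x : ℝ) ≤ X := by exact_mod_cast hx.le
        linarith
    · simp only [h, if_false]
      exact Nat.zero_le _
  have hds := double_sum d l' ρ hρ0.le hρ1 hd0 X M hlM
  have htel : ∀ n, ∑ y ∈ range n, d y = F n - F 0 := by
    intro n
    rw [hd]
    exact Finset.sum_range_sub F n
  have hFM : F (X + M) ≤ F X + M := by
    have h3 : ∀ m : ℕ, F (X + m) ≤ F X + m := by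
      intro m
      induction m with
      | zero => simp
      | succ m ih =>
        have := h2 (X + m)
        have e : X + (m + 1) = X + m + 1 := rfl
        rw [e]
        push_cast
        linarith
    exact h3 M
  have hall : ∀ x ∈ range X, d x ≤ (if x < x0 then (1 : ℝ) else 0) +
      (C * Real.exp K * ν x + η x) +
      B / K * (ρ ^ (l' x) * ∑ j ∈ range (l' x), d (x + 1 + j)) := by
    intro x _
    by_cases h : x0 ≤ x
    · have h3 := hpt x h
      have h4 : ¬ x < x0 := not_lt.2 h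
      rw [hl']
      simp only [h, if_true, h4, if_false, zero_add]
      exact h3
    · have h4 : x < x0 := lt_of_not_ge h
      rw [hl']
      simp only [h, if_false, h4, if_true, Finset.range_zero, Finset.sum_empty, mul_zero,
        add_zero]
      have h5 : d x ≤ 1 := by
        rw [hd]
        exact h2 x
      have h6 : 0 ≤ C * Real.exp K * ν x := by
        have := hν x
        positivity
      have := hη x
      linarith
  have hsumall := Finset.sum_le_sum hall
  rw [htel, Finset.sum_add_distrib, Finset.sum_add_distrib, Finset.sum_add_distrib,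
    ← Finset.mul_sum, ← Finset.mul_sum] at hsumall
  have h5 : ∑ x ∈ range X, (if x < x0 then (1 : ℝ) else 0) ≤ x0 := by
    rw [Finset.sum_ite, Finset.sum_const_zero, add_zero, Finset.sum_const, nsmul_eq_mul, mul_one]
    have h6 : ((range X).filter fun x => x < x0) ⊆ range x0 := by
      intro x hx
      rw [Finset.mem_filter] at hx
      exact Finset.mem_range.2 hx.2
    have := Finset.card_le_card h6
    rw [Finset.card_range] at this
    exact_mod_cast this
  have h7 := hKε X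
  rw [← hL] at h7
  have h8 : C * Real.exp K * ∑ x ∈ range X, ν x ≤ δ / 4 * L + C * Real.exp K * |Kε| := by
    have h9 : 0 ≤ C * Real.exp K := by positivity
    calc C * Real.exp K * ∑ x ∈ range X, ν x ≤ C * Real.exp K * (ε * L + |Kε|) :=
          mul_le_mul_of_nonneg_left (h7.trans (by linarith [le_abs_self Kε])) h9
      _ = C * Real.exp K * ε * L + C * Real.exp K * |Kε| := by ring
      _ = δ / 4 * L + C * Real.exp K * |Kε| := by rw [hεC]
  have h10 : B / K * ∑ x ∈ range X, (ρ ^ (l' x) * ∑ j ∈ range (l' x), d (x + 1 + j)) ≤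
      (F X - F 0) / 2 + δ / 4 * L := by
    have hBK : 0 ≤ B / K := by positivity
    have h11 : ∑ y ∈ range (X + M), d y ≤ (F X - F 0) + C * L := by
      rw [htel]
      linarith
    have h12 : 0 ≤ F X - F 0 := sub_nonneg.2 (hmono (Nat.zero_le X))
    calc B / K * ∑ x ∈ range X, (ρ ^ (l' x) * ∑ j ∈ range (l' x), d (x + 1 + j))
        ≤ B / K * (S * ((F X - F 0) + C * L)) := by
          refine mul_le_mul_of_nonneg_left (hds.trans ?_) hBK
          rw [← hS]
          exact mul_le_mul_of_nonneg_left h11 hS0.le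
      _ = B / K * S * (F X - F 0) + B / K * S * C * L := by ring
      _ ≤ 1 / 2 * (F X - F 0) + δ / 4 * L :=
          add_le_add (mul_le_mul_of_nonneg_right hq h12) (mul_le_mul_of_nonneg_right hq2 hL0)
      _ = (F X - F 0) / 2 + δ / 4 * L := by ring
  have h13 := hηs X
  rw [← hL]
  linarith

end Pool.MP_7d29a1_pr.F1
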