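import Mathlib

/-!
Pure sequence part of Theorem F (proofs row 602), section 6 (summable relative widths) and the sum
of the numbers `nu_x` of section 9.
-/

set_option autoImplicit false

namespace Pool.MP_7d29a1_pr.F1

open Finset

/-- **Telescoping widths** (section 6): the relative widths `U` are summable and `τ` has bounded
variation. -/
theorem widths (U τ f : ℕ → ℝ) (κ m d : ℝ) (hU : ∀ i, 0 ≤ U i) (hκm : κ + m ≤ 1 / 2) (_hm : 0 ≤ m)
    (hκ : 0 ≤ κ) (hτ : ∀ i, -d ≤ τ i) (hf : ∀ i, 0 ≤ f i) (hfs : Summable f)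
    (hb : ∀ i, 0 ≤ τ i - τ (i + 1) + κ * U i)
    (hrec : ∀ i, U (i + 1) ≤ (τ i - τ (i + 1) + κ * U i) + m * U i + f i) :
    Summable U ∧ Summable fun i => |τ (i + 1) - τ i| := by
  have hUs : Summable U := by
    refine summable_of_sum_range_le (c := 2 * (U 0 + (τ 0 + d) + ∑' i, f i)) hU fun n => ?_
    have h1 : ∀ n, ∑ i ∈ range n, U (i + 1) ≤ (τ 0 - τ n) + 1 / 2 * ∑ i ∈ range n, U i +
        ∑ i ∈ range n, f i := by
      intro n
      induction n with
      | zero => simp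
      | succ n ih =>
        rw [Finset.sum_range_succ, Finset.sum_range_succ (f := U), Finset.sum_range_succ (f := f)]
        have h2 := hrec n
        have h3 := hU n
        nlinarith
    have h2 := h1 n
    have h3 : ∑ i ∈ range n, U i ≤ U 0 + ∑ i ∈ range n, U (i + 1) := by
      have h4 := Finset.sum_range_succ' U n
      have h5 : ∑ i ∈ range n, U i ≤ ∑ i ∈ range (n + 1), U i := by
        rw [Finset.sum_range_succ]
        linarith [hU n]
      linarith
    have h4 : ∑ i ∈ range n, f i ≤ ∑' i, f i := hfs.sum_le_tsum _ fun i _ => hf i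
    have h5 := hτ n
    linarith
  refine ⟨hUs, ?_⟩
  have h1 : ∀ i, |τ (i + 1) - τ i| ≤ (τ i - τ (i + 1)) + 2 * κ * U i := by
    intro i
    have h2 := hb i
    have h3 := mul_nonneg hκ (hU i)
    rw [abs_le]
    constructor <;> nlinarith
  refine summable_of_sum_range_le (c := (τ 0 + d) + 2 * κ * ∑' i, U i)
    (fun i => abs_nonneg _) fun n => ?_
  refine (Finset.sum_le_sum fun i _ => h1 i).trans ?_
  rw [Finset.sum_add_distrib, ← Finset.mul_sum]
  have h2 : ∑ i ∈ range n, (τ i - τ (i + 1)) = τ 0 - τ n := Finset.sum_range_sub' τ n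
  rw [h2]
  have h3 : ∑ i ∈ range n, U i ≤ ∑' i, U i := hUs.sum_le_tsum _ fun i _ => hU i
  have h4 := hτ n
  have h5 : 2 * κ * ∑ i ∈ range n, U i ≤ 2 * κ * ∑' i, U i :=
    mul_le_mul_of_nonneg_left h3 (by positivity)
  linarith

/-- the convolved widths `U*` -/
noncomputable def Ust (r : ℝ) (U τ : ℕ → ℝ) (i : ℕ) : ℝ :=
  ∑ p ∈ range (i + 1), r ^ p * (U (i - p) + |τ i - τ (i - p)|)

theorem Ust_nonneg {r : ℝ} (hr : 0 ≤ r) {U τ : ℕ → ℝ} (hU : ∀ i, 0 ≤ U i) (i : ℕ) :
    0 ≤ Ust r U τ i := by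
  unfold Ust
  exact Finset.sum_nonneg fun p _ => mul_nonneg (pow_nonneg hr _)
    (add_nonneg (hU _) (abs_nonneg _))

/-- one term of `U*` -/
theorem Ust_ge {r : ℝ} (hr : 0 ≤ r) {U τ : ℕ → ℝ} (hU : ∀ i, 0 ≤ U i) {i p : ℕ} (hp : p ≤ i) :
    r ^ p * (U (i - p) + |τ i - τ (i - p)|) ≤ Ust r U τ i := by
  unfold Ust
  exact Finset.single_le_sum (f := fun p => r ^ p * (U (i - p) + |τ i - τ (i - p)|))
    (fun p _ => mul_nonneg (pow_nonneg hr _) (add_nonneg (hU _) (abs_nonneg _)))
    (Finset.mem_range.2 (Nat.lt_succ_of_le hp))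

theorem le_Ust {r : ℝ} (hr : 0 ≤ r) {U τ : ℕ → ℝ} (hU : ∀ i, 0 ≤ U i) (i : ℕ) :
    U i ≤ Ust r U τ i := by
  have := Ust_ge (τ := τ) hr hU (i := i) (p := 0) (Nat.zero_le _)
  simpa using this

private theorem conv_summable {r : ℝ} (hr0 : 0 ≤ r) (hr1 : r < 1) {u : ℕ → ℝ} (hu : ∀ i, 0 ≤ u i)
    (hus : Summable u) : Summable fun i => ∑ p ∈ range (i + 1), r ^ p * u (i - p) := by
  have hg : Summable fun p : ℕ => r ^ p := summable_geometric_of_lt_one hr0 hr1
  have h1 : Summable fun x : ℕ × ℕ => r ^ x.1 * u x.2 :=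
    Summable.mul_of_nonneg hg hus (fun p => pow_nonneg hr0 p) hu
  have h2 := summable_sum_mul_antidiagonal_of_summable_mul h1
  refine h2.congr fun i => ?_
  rw [Finset.Nat.sum_antidiagonal_eq_sum_range_succ (fun a b => r ^ a * u b)]

/-- **`U*` is summable** -/
theorem Ust_summable {r : ℝ} (hr0 : 0 ≤ r) (hr1 : r < 1) {U τ : ℕ → ℝ} (hU : ∀ i, 0 ≤ U i)
    (hUs : Summable U) (hτs : Summable fun i => |τ (i + 1) - τ i|) :
    Summable (Ust r U τ) := by
  obtain ⟨t, ht⟩ : ∃ t : ℕ → ℝ, t = fun i => |τ (i + 1) - τ i| := ⟨_, rfl⟩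
  have ht0 : ∀ i, 0 ≤ t i := fun i => by rw [ht]; exact abs_nonneg _
  have hts : Summable t := by rw [ht]; exact hτs
  -- variation bound
  have hvar : ∀ i p, p ≤ i → |τ i - τ (i - p)| ≤ ∑ q ∈ range p, t (i - 1 - q) := by
    intro i p
    induction p with
    | zero => intro _; simp
    | succ p ih =>
      intro hp
      rw [Finset.sum_range_succ]
      have h1 := ih (by omega)
      have h2 : |τ (i - p) - τ (i - (p + 1))| = t (i - 1 - p) := by
        rw [ht]
        have e1 : i - p = i - 1 - p + 1 := by omega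
        have e2 : i - (p + 1) = i - 1 - p := by omega
        rw [e1, e2]
      calc |τ i - τ (i - (p + 1))| = |(τ i - τ (i - p)) + (τ (i - p) - τ (i - (p + 1)))| := by
            congr 1; ring
        _ ≤ |τ i - τ (i - p)| + |τ (i - p) - τ (i - (p + 1))| := abs_add_le _ _
        _ ≤ _ := by rw [h2]; linarith
  -- weighted variation
  obtain ⟨s, hs⟩ : ∃ s : ℝ, s = 1 / (1 - r) := ⟨_, rfl⟩
  have hs0 : 0 < s := by rw [hs]; exact div_pos one_pos (by linarith)
  have hgeo : ∀ q i : ℕ, ∑ p ∈ (range (i + 1)).filter (fun p => q < p), r ^ p ≤ s * r ^ (q + 1) := by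
    intro q i
    have h1 : Summable fun p : ℕ => r ^ (q + 1) * r ^ p :=
      (summable_geometric_of_lt_one hr0 hr1).mul_left _
    have h2 : ∑ p ∈ (range (i + 1)).filter (fun p => q < p), r ^ p ≤
        ∑ p ∈ range (i + 1), r ^ (q + 1) * r ^ p := by
      have h3 : ∑ p ∈ (range (i + 1)).filter (fun p => q < p), r ^ p =
          ∑ p ∈ ((range (i + 1)).filter (fun p => q < p)).image (fun p => p - (q + 1)),
            r ^ (q + 1) * r ^ p := by
        rw [Finset.sum_image]
        · refine Finset.sum_congr rfl fun p hp => ?_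
          rw [Finset.mem_filter] at hp
          rw [← pow_add]
          congr 1
          omega
        · intro a ha b hb hab
          have ha' := (Finset.mem_filter.1 ha).2
          have hb' := (Finset.mem_filter.1 hb).2
          simp only at hab
          omega
      rw [h3]
      refine Finset.sum_le_sum_of_subset_of_nonneg ?_ (fun p _ _ =>
        mul_nonneg (pow_nonneg hr0 _) (pow_nonneg hr0 _))
      intro p hp
      rw [Finset.mem_image] at hp
      obtain ⟨a, ha, rfl⟩ := hp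
      have := Finset.mem_range.1 (Finset.mem_filter.1 ha).1
      rw [Finset.mem_range]
      omega
    refine h2.trans ?_
    have h4 := h1.sum_le_tsum (range (i + 1)) fun p _ =>
      mul_nonneg (pow_nonneg hr0 _) (pow_nonneg hr0 _)
    refine h4.trans ?_
    rw [tsum_mul_left, tsum_geometric_of_lt_one hr0 hr1, hs, one_div]
    exact le_of_eq (mul_comm _ _)
  have hmain : ∀ i, Ust r U τ i ≤ ∑ p ∈ range (i + 1), r ^ p * U (i - p) +
      s * r * ∑ q ∈ range (i + 1), r ^ q * t (i - 1 - q) := by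
    intro i
    unfold Ust
    have h1 : ∑ p ∈ range (i + 1), r ^ p * (U (i - p) + |τ i - τ (i - p)|) =
        ∑ p ∈ range (i + 1), r ^ p * U (i - p) +
          ∑ p ∈ range (i + 1), r ^ p * |τ i - τ (i - p)| := by
      rw [← Finset.sum_add_distrib]
      exact Finset.sum_congr rfl fun p _ => by ring
    rw [h1]
    refine add_le_add le_rfl ?_
    have h2 : ∀ p ∈ range (i + 1), r ^ p * |τ i - τ (i - p)| ≤
        ∑ q ∈ range (i + 1), if q < p then r ^ p * t (i - 1 - q) else 0 := by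
      intro p hp
      have hp' := Nat.lt_succ_iff.1 (Finset.mem_range.1 hp)
      refine (mul_le_mul_of_nonneg_left (hvar i p hp') (pow_nonneg hr0 _)).trans ?_
      rw [Finset.mul_sum, ← Finset.sum_filter]
      refine Finset.sum_le_sum_of_subset_of_nonneg ?_ (fun q _ _ =>
        mul_nonneg (pow_nonneg hr0 _) (ht0 _))
      intro q hq
      have := Finset.mem_range.1 hq
      rw [Finset.mem_filter, Finset.mem_range]
      omega
    refine (Finset.sum_le_sum h2).trans ?_
    rw [Finset.sum_comm, Finset.mul_sum]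
    refine Finset.sum_le_sum fun q _ => ?_
    rw [← Finset.sum_filter, ← Finset.sum_mul]
    calc (∑ p ∈ (range (i + 1)).filter (fun p => q < p), r ^ p) * t (i - 1 - q)
        ≤ s * r ^ (q + 1) * t (i - 1 - q) := mul_le_mul_of_nonneg_right (hgeo q i) (ht0 _)
      _ = s * r * (r ^ q * t (i - 1 - q)) := by ring
  -- summability
  have hc1 := conv_summable hr0 hr1 hU hUs
  -- shift of t
  obtain ⟨t', ht'⟩ : ∃ t' : ℕ → ℝ, t' = fun i => t (i - 1) := ⟨_, rfl⟩
  have ht'0 : ∀ i, 0 ≤ t' i := fun i => by rw [ht']; exact ht0 _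
  have ht's : Summable t' := by
    rw [← summable_nat_add_iff 1, ht']
    simpa using hts
  have hc2 := conv_summable hr0 hr1 ht'0 ht's
  have hc3 : Summable fun i => s * r * ∑ q ∈ range (i + 1), r ^ q * t (i - 1 - q) := by
    refine Summable.mul_left _ (hc2.congr fun i => ?_)
    refine Finset.sum_congr rfl fun q _ => ?_
    rw [ht']
    have e : i - 1 - q = i - q - 1 := by omega
    rw [e]
  exact Summable.of_nonneg_of_le (Ust_nonneg hr0 hU) hmain (hc1.add hc3)

/-- sums with a logarithm -/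
theorem sum_log {u : ℕ → ℝ} (hu : ∀ i, 0 ≤ u i) (hus : Summable u) (ε : ℝ) (hε : 0 < ε) :
    ∃ K, ∀ X : ℕ, ∑ i ∈ range X, u i * Real.log ((i : ℝ) + 2) ≤
      ε * Real.log ((X : ℝ) + 2) + K := by
  obtain ⟨N, hN⟩ : ∃ N : ℕ, ∀ X, ∑ i ∈ (range X).filter (fun i => N ≤ i), u i ≤ ε := by
    have h1 := hus.hasSum.tendsto_sum_nat
    have h2 := (Metric.tendsto_atTop.1 h1) ε hε
    obtain ⟨N, hN⟩ := h2
    refine ⟨N, fun X => ?_⟩
    have h3 := hN N le_rfl
    rw [Real.dist_eq, abs_lt] at h3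
    have h4 : ∑ i ∈ range N, u i + ∑ i ∈ (range X).filter (fun i => N ≤ i), u i ≤ ∑' i, u i := by
      rw [← Finset.sum_union]
      · exact hus.sum_le_tsum _ fun i _ => hu i
      · rw [Finset.disjoint_left]
        intro i hi hi'
        have := Finset.mem_range.1 hi
        have := (Finset.mem_filter.1 hi').2
        omega
    linarith
  refine ⟨∑ i ∈ range N, u i * Real.log ((i : ℝ) + 2), fun X => ?_⟩
  have hlog : ∀ i : ℕ, 0 ≤ Real.log ((i : ℝ) + 2) := fun i =>
    Real.log_nonneg (by have : (0 : ℝ) ≤ i := Nat.cast_nonneg i; linarith)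
  rw [← Finset.sum_filter_add_sum_filter_not (range X) (fun i => N ≤ i)]
  refine add_le_add ?_ ?_
  · calc ∑ i ∈ (range X).filter (fun i => N ≤ i), u i * Real.log ((i : ℝ) + 2)
        ≤ ∑ i ∈ (range X).filter (fun i => N ≤ i), u i * Real.log ((X : ℝ) + 2) := by
          refine Finset.sum_le_sum fun i hi => mul_le_mul_of_nonneg_left ?_ (hu i)
          have h1 := Finset.mem_range.1 (Finset.mem_filter.1 hi).1
          have h2 : (i : ℝ) ≤ X := by exact_mod_cast h1.le
          have h3 : (0 : ℝ) ≤ i := Nat.cast_nonneg i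
          exact Real.log_le_log (by linarith) (by linarith)
      _ = (∑ i ∈ (range X).filter (fun i => N ≤ i), u i) * Real.log ((X : ℝ) + 2) := by
          rw [Finset.sum_mul]
      _ ≤ ε * Real.log ((X : ℝ) + 2) := mul_le_mul_of_nonneg_right (hN X) (hlog X)
  · refine Finset.sum_le_sum_of_subset_of_nonneg ?_ (fun i _ _ => mul_nonneg (hu i) (hlog i))
    intro i hi
    rw [Finset.mem_filter] at hi
    rw [Finset.mem_range]
    omega

/-- the geometric sum of dyadic numbers below a threshold -/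
theorem sum_dyadic (X : ℕ) (R : ℝ) (hR : 0 ≤ R) :
    ∑ x ∈ (range X).filter (fun x : ℕ => (2 : ℝ) ^ x ≤ R), (2 : ℝ) ^ x ≤ 2 * R := by
  induction X with
  | zero => simpa using hR
  | succ X ih =>
    rw [Finset.range_add_one, Finset.filter_insert]
    by_cases h : (2 : ℝ) ^ X ≤ R
    · rw [if_pos h, Finset.sum_insert (by simp)]
      have h1 : ∑ x ∈ (range X).filter (fun x : ℕ => (2 : ℝ) ^ x ≤ R), (2 : ℝ) ^ x ≤
          ∑ x ∈ range X, (2 : ℝ) ^ x :=
        Finset.sum_le_sum_of_subset_of_nonneg (Finset.filter_subset _ _)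
          (fun x _ _ => by positivity)
      have h2 : ∑ x ∈ range X, (2 : ℝ) ^ x = 2 ^ X - 1 := by
        rw [geom_sum_eq (by norm_num)]
        norm_num
      linarith
    · rw [if_neg h]
      exact ih

/-- **The sum of `nu_x`** (section 9): `nu_x ≤ D 2^x / A^i` for an index `i = idx x < N` with
`2^x ≤ r (i+1) A^i`. -/
theorem sum_nu (ν ψ : ℕ → ℝ) (idx : ℕ → ℕ) (A D : ℝ) (hA : 0 < A) (hD : 0 ≤ D)
    (hψ : ∀ i, 0 ≤ ψ i) (X N : ℕ) (hN : ∀ x, x < X → idx x < N)
    (h1 : ∀ x, x < X → ν x ≤ D * (2 ^ x / A ^ idx x))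
    (h2 : ∀ x, x < X → (2 : ℝ) ^ x ≤ ψ (idx x) * A ^ idx x) :
    ∑ x ∈ range X, ν x ≤ 2 * D * ∑ i ∈ range N, ψ i := by
  have h3 : ∀ x ∈ range X, ν x ≤ ∑ i ∈ range N,
      if (2 : ℝ) ^ x ≤ ψ i * A ^ i then D * (2 ^ x / A ^ i) else 0 := by
    intro x hx
    have hx' := Finset.mem_range.1 hx
    have h4 := Finset.single_le_sum (f := fun i =>
      if (2 : ℝ) ^ x ≤ ψ i * A ^ i then D * (2 ^ x / A ^ i) else 0) (s := range N)
      (fun i _ => by
        by_cases h : (2 : ℝ) ^ x ≤ ψ i * A ^ i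
        · rw [if_pos h]; positivity
        · rw [if_neg h]) (Finset.mem_range.2 (hN x hx'))
    refine le_trans ?_ h4
    rw [if_pos (h2 x hx')]
    exact h1 x hx'
  refine (Finset.sum_le_sum h3).trans ?_
  rw [Finset.sum_comm, Finset.mul_sum]
  refine Finset.sum_le_sum fun i _ => ?_
  rw [← Finset.sum_filter]
  have hAi : 0 < A ^ i := pow_pos hA i
  have h5 := sum_dyadic X (ψ i * A ^ i) (mul_nonneg (hψ i) hAi.le)
  have h6 : ∑ x ∈ (range X).filter (fun x : ℕ => (2 : ℝ) ^ x ≤ ψ i * A ^ i),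
      D * ((2 : ℝ) ^ x / A ^ i) =
      D / A ^ i * ∑ x ∈ (range X).filter (fun x : ℕ => (2 : ℝ) ^ x ≤ ψ i * A ^ i), (2 : ℝ) ^ x := by
    rw [Finset.mul_sum]
    exact Finset.sum_congr rfl fun x _ => by ring
  rw [h6]
  calc D / A ^ i * ∑ x ∈ (range X).filter (fun x : ℕ => (2 : ℝ) ^ x ≤ ψ i * A ^ i), (2 : ℝ) ^ x
      ≤ D / A ^ i * (2 * (ψ i * A ^ i)) := mul_le_mul_of_nonneg_left h5 (by positivity)
    _ = 2 * D * ψ i := by field_simp

end Pool.MP_7d29a1_pr.F1
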